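import Pool.Agent.Helper43.CR.Defs

/-!
CR-9: the perfect kernel of a second countable space.
-/

set_option autoImplicit false

open Set Topology Filter TopologicalSpace

namespace Pool.Agent.Helper2.CR

/-- The perfect kernel. -/
theorem perfect_kernel (S : Type) [TopologicalSpace S] [SecondCountableTopology S] :
    IsClosed {x : S | ∀ U : Set S, IsOpen U → x ∈ U → ¬ U.Countable} ∧
      {x : S | ∀ U : Set S, IsOpen U → x ∈ U → ¬ U.Countable}ᶜ.Countable ∧
      ∀ x : S, (∀ U : Set S, IsOpen U → x ∈ U → ¬ U.Countable) →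
        ∀ U : Set S, IsOpen U → x ∈ U → ∃ y ∈ U, y ≠ x ∧
          ∀ U : Set S, IsOpen U → y ∈ U → ¬ U.Countable := by
  have hcompl : {x : S | ∀ U : Set S, IsOpen U → x ∈ U → ¬ U.Countable}ᶜ
      = ⋃₀ {B : Set S | B ∈ countableBasis S ∧ B.Countable} := by
    ext x
    simp only [mem_compl_iff, mem_setOf_eq, mem_sUnion]
    constructor
    · intro h
      push Not at h
      obtain ⟨U, hU, hxU, hUc⟩ := h
      obtain ⟨B, hB, hxB, hBU⟩ :=
        (isBasis_countableBasis S).exists_subset_of_mem_open hxU hU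
      exact ⟨B, ⟨hB, hUc.mono hBU⟩, hxB⟩
    · rintro ⟨B, ⟨hB, hBc⟩, hxB⟩ h
      exact h B (isOpen_of_mem_countableBasis hB) hxB hBc
  have hcc : {x : S | ∀ U : Set S, IsOpen U → x ∈ U → ¬ U.Countable}ᶜ.Countable := by
    rw [hcompl]
    refine Set.Countable.sUnion ?_ ?_
    · exact (countable_countableBasis S).mono (fun B hB => hB.1)
    · exact fun B hB => hB.2
  refine ⟨?_, hcc, ?_⟩
  · rw [← isOpen_compl_iff, hcompl]
    exact isOpen_sUnion (fun B hB => isOpen_of_mem_countableBasis hB.1)
  · intro x hx U hU hxU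
    by_contra hcon
    push Not at hcon
    apply hx U hU hxU
    have hsub : U ⊆ {x} ∪ {x : S | ∀ U : Set S, IsOpen U → x ∈ U → ¬ U.Countable}ᶜ := by
      intro y hy
      by_cases hyx : y = x
      · exact Or.inl hyx
      · right
        intro hk
        obtain ⟨W, hW, hyW, hWc⟩ := hcon y hy hyx
        exact hk W hW hyW hWc
    exact ((Set.countable_singleton x).union hcc).mono hsub

end Pool.Agent.Helper2.CR
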